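import Pool.Agent.W758.AHC.Stm

set_option autoImplicit false

namespace Pool.Agent.W987.AHC

open Pool.Agent.W758.AHC

theorem regv : S_REG → S_REGV := by
  intro hR ι _ l V A B hA hB hl hV hA3 hB3 hAh hBh hAB
  let T : Finset ι → Finset {x // x ∈ V} := fun a => a.subtype (fun x => x ∈ V)
  have hTmem : ∀ (a : Finset ι) (x : {x // x ∈ V}), x ∈ T a ↔ (x : ι) ∈ a := by
    intro a x
    exact Finset.mem_subtype
  have hinj : ∀ C : Finset (Finset ι), (∀ a ∈ C, a ⊆ V) →
      Set.InjOn T (C : Set (Finset ι)) := by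
    intro C hC a ha b hb hab
    ext x
    constructor
    · intro hx
      have hxV := hC a ha hx
      have : (⟨x, hxV⟩ : {x // x ∈ V}) ∈ T a := (hTmem a _).2 hx
      rw [hab] at this
      exact (hTmem b _).1 this
    · intro hx
      have hxV := hC b hb hx
      have : (⟨x, hxV⟩ : {x // x ∈ V}) ∈ T b := (hTmem b _).2 hx
      rw [← hab] at this
      exact (hTmem a _).1 this
  have hcard : ∀ C : Finset (Finset ι), (∀ a ∈ C, a ⊆ V) → (C.image T).card = C.card :=
    fun C hC => Finset.card_image_of_injOn (hinj C hC)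
  have hhalf : ∀ C : Finset (Finset ι), (∀ a ∈ C, a ⊆ V) →
      (∀ x ∈ V, C.card < 2 * (C.filter (fun a => x ∈ a)).card) → Half (C.image T) := by
    intro C hC h x
    have e : (C.image T).filter (fun a => x ∈ a) = (C.filter (fun a => (x : ι) ∈ a)).image T := by
      ext s
      simp only [Finset.mem_filter, Finset.mem_image]
      constructor
      · rintro ⟨⟨a, ha, rfl⟩, hx⟩
        exact ⟨a, ⟨ha, (hTmem a x).1 hx⟩, rfl⟩
      · rintro ⟨a, ⟨ha, hx⟩, rfl⟩
        exact ⟨⟨a, ha, rfl⟩, (hTmem a x).2 hx⟩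
    rw [e, hcard C hC, hcard _ (fun a ha => hC a (Finset.mem_filter.1 ha).1)]
    exact h x x.2
  have hcap : ∀ a b : Finset ι, a ⊆ V → (T a ∩ T b).card = (a ∩ b).card := by
    intro a b ha
    have e : T a ∩ T b = T (a ∩ b) := by
      ext x
      rw [Finset.mem_inter, hTmem, hTmem, hTmem, Finset.mem_inter]
    rw [e]
    change ((a ∩ b).subtype (fun x => x ∈ V)).card = _
    rw [Finset.card_subtype, Finset.filter_true_of_mem]
    intro x hx
    exact ha (Finset.mem_inter.1 hx).1
  have key := hR {x // x ∈ V} l (A.image T) (B.image T) hl (by rw [Fintype.card_coe]; exact hV)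
    (by rw [hcard A hA]; exact hA3) (by rw [hcard B hB]; exact hB3)
    (hhalf A hA hAh) (hhalf B hB hBh) (by
      intro s hs t ht
      obtain ⟨a, ha, rfl⟩ := Finset.mem_image.1 hs
      obtain ⟨b, hb, rfl⟩ := Finset.mem_image.1 ht
      rw [hcap a b (hA a ha)]
      exact hAB a ha b hb)
  rw [hcard A hA, hcard B hB, Fintype.card_coe] at key
  exact key

end Pool.Agent.W987.AHC
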